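import Pool.Agent.Helper54.PT.LocG

/-!
# The quadratic form on the classes of points
-/

set_option autoImplicit false

namespace Pool.Agent.Helper65.TG

open Finset Pool.Agent.Helper43.TW Pool.Agent.Helper47.BSD Pool.Agent.Helper54.PT

/-- Sums over ordered pairs of different elements depend only on the symmetrised function. -/
theorem sum_pairs {ι M : Type*} [DecidableEq ι] [AddCommGroup M] (s : Finset ι) (f g : ι → ι → M)
    (h : ∀ i ∈ s, ∀ j ∈ s, i ≠ j → f i j + f j i = g i j + g j i) :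
    ∑ i ∈ s, ∑ j ∈ s.erase i, f i j = ∑ i ∈ s, ∑ j ∈ s.erase i, g i j := by
  induction s using Finset.induction_on with
  | empty => simp
  | insert x s hx ih =>
    have key : ∀ F : ι → ι → M, ∑ i ∈ insert x s, ∑ j ∈ (insert x s).erase i, F i j =
        (∑ j ∈ s, (F x j + F j x)) + ∑ i ∈ s, ∑ j ∈ s.erase i, F i j := by
      intro F
      have h1 : ∑ i ∈ s, ∑ j ∈ (insert x s).erase i, F i j =
          ∑ i ∈ s, F i x + ∑ i ∈ s, ∑ j ∈ s.erase i, F i j := by
        rw [← sum_add_distrib]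
        refine sum_congr rfl fun i hi => ?_
        have hxi : x ≠ i := fun h0 => hx (h0 ▸ hi)
        rw [erase_insert_of_ne hxi, sum_insert (fun h0 => hx (mem_of_mem_erase h0))]
      rw [sum_insert hx, erase_insert hx, sum_add_distrib, add_assoc, h1]
    rw [key f, key g, ih fun i hi j hj => h i (mem_insert_of_mem hi) j (mem_insert_of_mem hj)]
    congr 1
    refine sum_congr rfl fun j hj => ?_
    exact h x (mem_insert_self x s) j (mem_insert_of_mem hj) (fun h0 => hx (h0 ▸ hj))

section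

variable {k : Type*} [NormedField k]

theorem add_self2 (x : Cl 2 k) : x + x = 0 := by
  have h : x + x = (2 : ZMod 2) • x := (two_smul (ZMod 2) x).symm
  rw [h, show (2 : ZMod 2) = 0 from rfl, zero_smul]

theorem neg2 (x : Cl 2 k) : -x = x := by
  rw [neg_eq_iff_add_eq_zero, add_self2]

end

end Pool.Agent.Helper65.TG

namespace Pool.Agent.Helper54.PT

open Finset Pool.Agent.Helper43.TW Pool.Agent.Helper47.BSD Pool.Agent.Helper65.TG

universe u

variable {k : Type u} [NontriviallyNormedField k] [IsUltrametricDist k] [CompleteSpace k]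
  {π : k} {ι : Type} [Fintype ι] [DecidableEq ι] {a : ι → ℕ} {E : ι → k} {w : ι → Cl 2 k}

/-- L6: the quadratic form -/
theorem ptData_quad (hk : LF 2 π) (hc : cl 2 (-1 : k) = 0) (ha : ∀ i, ¬ 2 ∣ a i)
    (hE : ∀ i j, i ≠ j → E i ≠ E j) (hw : PtData hk a E w) :
    ∑ i, (nu hk (w i) • w i + tm hk (w i) (∑ j ∈ univ.erase i, cl 2 (E i - E j))) = 0 := by
  have h2 : (2 : ℕ).Prime := Nat.prime_two
  obtain ⟨i₁, ρ, n, hP⟩ := hw
  have ha1 : ∀ i, (a i : ZMod 2) = 1 := fun i => by
    rcases Nat.even_or_odd (a i) with h | h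
    · exact absurd h.two_dvd (ha i)
    · exact (ZMod.natCast_eq_one_iff_odd).2 h
  -- the two sets of indices
  set S : Finset ι := univ.filter (fun i => ‖E i - E i₁‖ ≤ ρ) with hS
  set O : Finset ι := univ.filter (fun i => ρ < ‖E i - E i₁‖) with hO
  have hSO : Disjoint S O := by
    rw [hS, hO, Finset.disjoint_filter]
    exact fun i _ h0 h1 => absurd h0 (not_le.2 h1)
  have hun : (univ : Finset ι) = S ∪ O := by
    ext i
    simp only [hS, hO, mem_univ, mem_union, mem_filter, true_and, true_iff]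
    exact le_or_gt _ _
  have mS : ∀ {i}, i ∈ S ↔ ‖E i - E i₁‖ ≤ ρ := fun {i} => by simp [hS]
  have mO : ∀ {i}, i ∈ O ↔ ρ < ‖E i - E i₁‖ := fun {i} => by simp [hO]
  set C : Cl 2 k := ∑ i ∈ O, cl 2 (E i₁ - E i) with hC
  have hCo : outC 2 a E i₁ ρ = C := by
    rw [outC, hC]
    exact sum_congr rfl fun i _ => by rw [ha1, one_smul]
  have hAi : inA 2 a E i₁ ρ = (S.card : ZMod 2) := by
    rw [inA, sum_congr rfl fun i _ => ha1 i, sum_const, nsmul_eq_mul, mul_one]
  have hn2 : n * n = n := by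
    have h0 : ∀ y : ZMod 2, y * y = y := by decide
    exact h0 n
  have hrel : ∑ i ∈ S, w i = n • C := by
    have h1 := hP.rel
    rw [sum_congr rfl fun i _ => by rw [ha1 i, one_smul], hun, sum_union hSO,
      sum_congr rfl fun i hi => hP.out i (mO.1 hi), ← smul_sum, ← hC] at h1
    rw [eq_neg_of_add_eq_zero_left h1, neg2]
  have hsym : ∀ i j, i ≠ j → cl 2 (E i - E j) = cl 2 (E j - E i) := fun i j hij =>
    cl_sub_comm hc (hE i j hij)
  -- splitting of the double sum
  have hsplit : ∑ i, tm hk (w i) (∑ j ∈ univ.erase i, cl 2 (E i - E j)) =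
      (∑ i ∈ S, ∑ j ∈ S.erase i, tm hk (w i) (cl 2 (E i - E j)) +
        ∑ i ∈ S, ∑ j ∈ O, tm hk (w i) (cl 2 (E i - E j))) +
      (∑ i ∈ O, ∑ j ∈ O.erase i, tm hk (w i) (cl 2 (E i - E j)) +
        ∑ i ∈ O, ∑ j ∈ S, tm hk (w i) (cl 2 (E i - E j))) := by
    conv_lhs => rw [hun, sum_union hSO]
    congr 1
    · rw [← sum_add_distrib]
      refine sum_congr rfl fun i hi => ?_
      have h1 : (S ∪ O).erase i = S.erase i ∪ O := by
        rw [erase_union_distrib, erase_eq_of_notMem (Finset.disjoint_left.1 hSO hi)]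
      rw [h1, sum_union (hSO.mono_left (erase_subset _ _)), tm_add_right, tm_sum_right,
        tm_sum_right]
    · rw [← sum_add_distrib]
      refine sum_congr rfl fun i hi => ?_
      have h1 : (S ∪ O).erase i = S ∪ O.erase i := by
        rw [erase_union_distrib, erase_eq_of_notMem (Finset.disjoint_right.1 hSO hi)]
      rw [h1, sum_union (hSO.mono_right (erase_subset _ _)), tm_add_right, tm_sum_right,
        tm_sum_right, add_comm]
  -- the mixed terms
  have hmix : ∀ i ∈ S, ∀ j ∈ O, cl 2 (E i - E j) = cl 2 (E i₁ - E j) := by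
    intro i hi j hj
    refine (cl_near h2 hk ?_).2.2
    rw [sub_sub_sub_cancel_right, norm_sub_rev (E i₁) (E j)]
    exact (mS.1 hi).trans_lt (mO.1 hj)
  have hneSO : ∀ i ∈ S, ∀ j ∈ O, i ≠ j := fun i hi j hj h0 =>
    Finset.disjoint_left.1 hSO hi (h0 ▸ hj)
  have hm1 : ∑ i ∈ S, ∑ j ∈ O, tm hk (w i) (cl 2 (E i - E j)) = 0 := by
    calc ∑ i ∈ S, ∑ j ∈ O, tm hk (w i) (cl 2 (E i - E j)) = ∑ i ∈ S, tm hk (w i) C := by
          refine sum_congr rfl fun i hi => ?_
          rw [hC, tm_sum_right]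
          exact sum_congr rfl fun j hj => by rw [hmix i hi j hj]
      _ = tm hk (n • C) C := by rw [← tm_sum_left, hrel]
      _ = 0 := by rw [tm_smul_left, tm_self, smul_zero]
  have hm2 : ∑ i ∈ O, ∑ j ∈ S, tm hk (w i) (cl 2 (E i - E j)) = 0 := by
    refine sum_eq_zero fun i hi => sum_eq_zero fun j hj => ?_
    rw [hsym i j (hneSO j hj i hi).symm, hmix j hj i hi, hP.out i (mO.1 hi), tm_smul_left, tm_self,
      smul_zero]
  -- the terms outside
  have hout : ∑ i ∈ O, ∑ j ∈ O.erase i, tm hk (w i) (cl 2 (E i - E j)) =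
      n • (nu hk C • C + ∑ i ∈ O, nu hk (cl 2 (E i₁ - E i)) • cl 2 (E i₁ - E i)) := by
    have h1 := sum_pairs O (fun i j => tm hk (w i) (cl 2 (E i - E j)))
      (fun i j => n • (nu hk (cl 2 (E i₁ - E j)) • cl 2 (E i₁ - E i))) (by
        intro i hi j hj hij
        have hx : E i₁ - E i ≠ 0 := by
          rw [← norm_pos_iff, norm_sub_rev]
          exact hP.pos.trans (mO.1 hi)
        have hy : E i₁ - E j ≠ 0 := by
          rw [← norm_pos_iff, norm_sub_rev]
          exact hP.pos.trans (mO.1 hj)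
        have hxy : E i₁ - E i ≠ E i₁ - E j := fun h0 => hE i j hij (sub_right_injective h0)
        have hst := tm_st h2 hk hc hx hy hxy
        rw [sub_sub_sub_cancel_left, tm_swap hk (cl 2 (E j - E i)), neg2, ← tm_add_left] at hst
        show tm hk (w i) (cl 2 (E i - E j)) + tm hk (w j) (cl 2 (E j - E i)) = _
        rw [hsym i j hij, ← tm_add_left, hP.out i (mO.1 hi), hP.out j (mO.1 hj), ← smul_add,
          tm_smul_left, ← hst, tm, sub_eq_add_neg, neg2, smul_add])
    rw [h1]
    calc ∑ i ∈ O, ∑ j ∈ O.erase i, n • (nu hk (cl 2 (E i₁ - E j)) • cl 2 (E i₁ - E i))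
        = ∑ i ∈ O, n • ((nu hk C + nu hk (cl 2 (E i₁ - E i))) • cl 2 (E i₁ - E i)) := by
          refine sum_congr rfl fun i hi => ?_
          rw [← smul_sum, ← sum_smul]
          congr 2
          have h3 : nu hk C = ∑ j ∈ O, nu hk (cl 2 (E i₁ - E j)) := by rw [hC, map_sum]
          rw [h3, ← add_sum_erase O _ hi, add_comm (nu hk (cl 2 (E i₁ - E i))), add_assoc,
            CharTwo.add_self_eq_zero, add_zero]
      _ = _ := by
          rw [← smul_sum]
          congr 1
          rw [sum_congr rfl fun i _ => add_smul _ _ _, sum_add_distrib, ← smul_sum, ← hC]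
  have hnuO : ∑ i ∈ O, nu hk (w i) • w i =
      n • ∑ i ∈ O, nu hk (cl 2 (E i₁ - E i)) • cl 2 (E i₁ - E i) := by
    rw [smul_sum]
    refine sum_congr rfl fun i hi => ?_
    rw [hP.out i (mO.1 hi), nu_smul, smul_smul, smul_smul, mul_right_comm, hn2]
  -- reduction to the disc
  suffices hmain : ∑ i ∈ S, nu hk (w i) • w i +
      ∑ i ∈ S, ∑ j ∈ S.erase i, tm hk (w i) (cl 2 (E i - E j)) + n • (nu hk C • C) = 0 by
    rw [sum_add_distrib, hsplit, hm1, hm2, hout, add_zero, add_zero]
    have h3 : ∑ i, nu hk (w i) • w i = ∑ i ∈ S, nu hk (w i) • w i + ∑ i ∈ O, nu hk (w i) • w i := by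
      conv_lhs => rw [hun, sum_union hSO]
    rw [h3, hnuO, smul_add]
    set X := n • ∑ i ∈ O, nu hk (cl 2 (E i₁ - E i)) • cl 2 (E i₁ - E i)
    calc _ = (∑ i ∈ S, nu hk (w i) • w i +
          ∑ i ∈ S, ∑ j ∈ S.erase i, tm hk (w i) (cl 2 (E i - E j)) + n • (nu hk C • C)) +
          (X + X) := by abel
      _ = 0 := by rw [hmain, add_self2, add_zero]
  rcases hP.ins with ⟨m, hρ, hnu, hcl, hrm⟩ | ⟨hcl, hlt, htm⟩
  · -- the radius is a value
    have h3 : ∑ i ∈ S, nu hk (w i) • w i = (n * m : ZMod 2) • (n • C) := by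
      rw [← hrel, smul_sum]
      exact sum_congr rfl fun i hi => by rw [hnu i (mS.1 hi)]
    have h4 : ∑ i ∈ S, ∑ j ∈ S.erase i, tm hk (w i) (cl 2 (E i - E j)) =
        ((S.card : ZMod 2) + 1) • ((m : ZMod 2) • (n • C)) := by
      rw [sum_pairs S (fun i j => tm hk (w i) (cl 2 (E i - E j))) (fun i _ => (m : ZMod 2) • w i)]
      · rw [← hrel, smul_sum, smul_sum]
        refine sum_congr rfl fun i hi => ?_
        rw [sum_const, ← Nat.cast_smul_eq_nsmul (ZMod 2)]
        congr 1
        rw [card_erase_of_mem hi, Nat.cast_sub (card_pos.2 ⟨i, hi⟩), Nat.cast_one,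
          CharTwo.sub_eq_add]
      · intro i hi j hj hij
        rw [hsym j i hij.symm, ← tm_add_left, tm, map_add, hnu i (mS.1 hi), hnu j (mS.1 hj),
          CharTwo.add_self_eq_zero, zero_smul, sub_zero, ← smul_add]
        have h5 : ‖E i - E j‖ ≤ ρ := by
          rw [show E i - E j = (E i - E i₁) + -(E j - E i₁) by ring]
          refine (IsUltrametricDist.norm_add_le_max _ _).trans (max_le (mS.1 hi) ?_)
          rw [norm_neg]
          exact mS.1 hj
        rcases h5.lt_or_eq with h6 | h6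
        · rw [hcl i j (mS.1 hi) (mS.1 hj) h6, add_self2, smul_zero, smul_zero]
        · rw [nu_cl hk (sub_ne_zero.2 (hE i j hij)) (h6.trans hρ)]
    have h5 : n * (nu hk C + (S.card : ZMod 2) * m) = 0 := by
      have h6 : nu hk (∑ i ∈ S, w i) = nu hk (n • C) := by rw [hrel]
      rw [map_sum, sum_congr rfl fun i hi => hnu i (mS.1 hi), sum_const, nsmul_eq_mul,
        nu_smul] at h6
      rw [mul_add, ← h6, show n * ((S.card : ZMod 2) * (m : ZMod 2)) =
        (S.card : ZMod 2) * (n * (m : ZMod 2)) by ring, CharTwo.add_self_eq_zero]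
    rw [h3, h4, smul_smul, smul_smul, smul_smul, smul_smul, ← add_smul, ← add_smul]
    have h6 : n * (m : ZMod 2) * n + ((S.card : ZMod 2) + 1) * (m : ZMod 2) * n + n * nu hk C =
        n * (nu hk C + (S.card : ZMod 2) * m) := by
      have h7 : n * (m : ZMod 2) * n = (m : ZMod 2) * n := by
        rw [mul_right_comm, hn2, mul_comm]
      have h8 : (m : ZMod 2) * n + (m : ZMod 2) * n = 0 := CharTwo.add_self_eq_zero _
      rw [h7]
      linear_combination h8
    rw [h6, h5, zero_smul]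
  · -- the radius is not a value
    have h3 : ∑ i ∈ S, nu hk (w i) • w i = (S.card : ZMod 2) • (nu hk (w i₁) • w i₁) := by
      rw [sum_congr rfl fun i hi => by rw [hcl i (mS.1 hi)], sum_const,
        ← Nat.cast_smul_eq_nsmul (ZMod 2)]
    have h4 : ∑ i ∈ S, ∑ j ∈ S.erase i, tm hk (w i) (cl 2 (E i - E j)) = 0 := by
      rw [sum_pairs S (fun i j => tm hk (w i) (cl 2 (E i - E j))) (fun _ _ => 0)]
      · exact sum_eq_zero fun i _ => sum_const_zero
      · intro i hi j hj hij
        rw [hsym j i hij.symm, hcl i (mS.1 hi), hcl j (mS.1 hj), add_self2, add_zero]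
    have h5 : (S.card : ZMod 2) • w i₁ = n • C := by
      rw [← hrel, sum_congr rfl fun i hi => hcl i (mS.1 hi), sum_const,
        ← Nat.cast_smul_eq_nsmul (ZMod 2)]
    have h01 : (S.card : ZMod 2) = 0 ∨ (S.card : ZMod 2) = 1 := by
      generalize (S.card : ZMod 2) = y
      revert y
      decide
    rw [h3, h4, add_zero]
    rcases h01 with h6 | h6
    · rw [h6, zero_smul] at h5
      rw [h6, zero_smul, zero_add, smul_comm, ← h5, smul_zero]
    · rw [h6, one_smul] at h5
      rw [h6, one_smul, h5, nu_smul, smul_smul, smul_smul, mul_right_comm, hn2, add_self2]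

end Pool.Agent.Helper54.PT
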