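import Pool.Agent.Helper76.TG.StG

/-!
# Project T3K (MP_3c9520_nt), module Tr2T: back to the Eichler potentials, twisted
-/

set_option autoImplicit false

namespace Pool.Agent.Helper65.TG

open Pool.Agent.Helper76.TG Pool.Agent.Helper28.WK Pool.Agent.Helper28.LV
open Pool.Agent.Helper14.CV

/-- MODULE Tr2T. -/
theorem hTr2T : StTr2T := by
  intro p a ν w s I hp hI hz i hi x y hxy
  have hp0 : (p : ℤ) ≠ 0 := by exact_mod_cast hp.ne_zero
  obtain ⟨c, hc⟩ := hz i hi
  have hom : ∀ k u v : ℤ, k ≠ 0 → (u ≠ 0 ∨ v ≠ 0) → I (k * u) (k * v) i = I u v i :=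
    fun k u v hk huv => hI.hom i hi k u v hk huv
  have h10 : I 1 0 i = 0 := hI.inf i hi
  have hm10 : I (-1) 0 i = 0 := by
    have h := hom (-1) 1 0 (by norm_num) (Or.inl one_ne_zero)
    rw [mul_one, mul_zero, h10] at h
    exact h
  have hc0 : c = 0 := by
    have h := hc 1 0 (Or.inl one_ne_zero)
    have h' : ((p : ℤ) ^ i) • I 1 (p * 0) i + (s * ((-1 : ℤ) ^ (a + i) * (p : ℤ) ^ i)) •
        I (-1) (p * 0) i = 0 + c := h
    rw [mul_zero, h10, hm10, smul_zero, smul_zero, add_zero, zero_add] at h'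
    exact h'.symm
  have hne : (p : ℤ) * x ≠ 0 ∨ y ≠ 0 := by
    rcases hxy with h | h
    · exact Or.inl (mul_ne_zero hp0 h)
    · exact Or.inr h
  have hne' : (-x ≠ 0 ∨ y ≠ 0) := by
    rcases hxy with h | h
    · exact Or.inl (neg_ne_zero.mpr h)
    · exact Or.inr h
  have h := hc (p * x) y hne
  have h' : ((p : ℤ) ^ i) • I (p * x) (p * y) i + (s * ((-1 : ℤ) ^ (a + i) * (p : ℤ) ^ i)) •
      I (-(p * x)) (p * y) i = 0 + c := h
  have e : -((p : ℤ) * x) = p * (-x) := by ring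
  rw [hom p x y hp0 hxy, e, hom p (-x) y hp0 hne', hc0, add_zero] at h'
  simp only [zsmul_eq_mul] at h'
  push_cast at h'
  have h2 : (p : ℂ) ^ i * (I x y i + (s * (-1) ^ (a + i)) * I (-x) y i) = 0 := by
    linear_combination h'
  have h3 : (p : ℂ) ^ i ≠ 0 := pow_ne_zero _ (by exact_mod_cast hp.ne_zero)
  exact (mul_eq_zero.mp h2).resolve_left h3

end Pool.Agent.Helper65.TG
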