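import Pool.Agent.Helper54.PT.LocG

/-!
# Isotropy for two points in disjoint discs
-/

set_option autoImplicit false

namespace Pool.Agent.Helper54.PT

open Finset Pool.Agent.Helper43.TW Pool.Agent.Helper47.BSD

universe u

variable {k : Type u} [NontriviallyNormedField k] [IsUltrametricDist k] [CompleteSpace k]
  {ℓ : ℕ} {π : k} {ι : Type} [Fintype ι] [DecidableEq ι] {a : ι → ℕ} {E : ι → k}
  {w w' : ι → Cl ℓ k} {i₁ i₁' : ι} {ρ ρ' : ℝ} {n n' : ZMod ℓ}

/-- L5a: disjoint discs -/
theorem ptAt_disj (hℓ : ℓ.Prime) (hk : LF ℓ π) (hc : cl ℓ (-1 : k) = 0)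
    (hE : ∀ i j, i ≠ j → E i ≠ E j) (hw : PtAt hk a E w i₁ ρ n) (hw' : PtAt hk a E w' i₁' ρ' n')
    (h : ρ < ‖E i₁ - E i₁'‖) (h' : ρ' < ‖E i₁ - E i₁'‖) :
    ∑ i, (a i : ZMod ℓ) • tm hk (w i) (w' i) = 0 := by
  have hD : E i₁ - E i₁' ≠ 0 := norm_pos_iff.1 (hw.pos.trans h)
  have key : ∀ i, tm hk (w i) (w' i) = n' • tm hk (w i) (cl ℓ (E i₁ - E i₁')) +
      n • tm hk (cl ℓ (E i₁ - E i₁')) (w' i) := by
    intro i
    rcases le_or_gt ‖E i - E i₁‖ ρ with h1 | h1
    · -- inside the first disc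
      have h2 : ‖(E i - E i₁') - (E i₁ - E i₁')‖ < ‖E i₁ - E i₁'‖ := by
        rw [sub_sub_sub_cancel_right]
        exact h1.trans_lt h
      obtain ⟨h3, h4, h5⟩ := cl_near hℓ hk h2
      have h6 : w' i = n' • cl ℓ (E i₁ - E i₁') := by
        rw [hw'.out i (by rw [h4]; exact h'), ← h5, cl_sub_comm hc]
        exact fun h0 => h3 (by rw [h0, sub_self])
      rw [h6, tm_smul_right, tm_smul_right, tm_self, smul_zero, smul_zero, add_zero]
    · rcases le_or_gt ‖E i - E i₁'‖ ρ' with h2 | h2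
      · -- inside the second disc
        have h3 : ‖(E i₁ - E i) - (E i₁ - E i₁')‖ < ‖E i₁ - E i₁'‖ := by
          rw [sub_sub_sub_cancel_left, norm_sub_rev]
          exact h2.trans_lt h'
        obtain ⟨h4, h5, h6⟩ := cl_near hℓ hk h3
        have h7 : w i = n • cl ℓ (E i₁ - E i₁') := by
          rw [hw.out i (by rw [norm_sub_rev, h5]; exact h), h6]
        rw [h7, tm_smul_left, tm_smul_left, tm_self, smul_zero, smul_zero, zero_add]
      · -- outside both discs
        have hx : E i₁ - E i ≠ 0 := by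
          rw [← norm_pos_iff, norm_sub_rev]
          exact hw.pos.trans h1
        have hy : E i₁' - E i ≠ 0 := by
          rw [← norm_pos_iff, norm_sub_rev]
          exact hw'.pos.trans h2
        have hxy : E i₁ - E i ≠ E i₁' - E i := fun h0 => hD (by
          rw [sub_eq_zero]
          exact sub_left_injective h0)
        have hst := tm_st hℓ hk hc hx hy hxy
        rw [sub_sub_sub_cancel_right] at hst
        rw [hw.out i h1, hw'.out i h2, tm_smul_left, tm_smul_right, hst, tm_smul_left,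
          tm_smul_right, smul_add, smul_add, smul_comm n' n]
  calc ∑ i, (a i : ZMod ℓ) • tm hk (w i) (w' i)
      = n' • tm hk (∑ i, (a i : ZMod ℓ) • w i) (cl ℓ (E i₁ - E i₁')) +
        n • tm hk (cl ℓ (E i₁ - E i₁')) (∑ i, (a i : ZMod ℓ) • w' i) := by
        rw [tm_sum_left, tm_sum_right, smul_sum, smul_sum, ← sum_add_distrib]
        refine sum_congr rfl fun i _ => ?_
        rw [key i, smul_add, tm_smul_left, tm_smul_right, smul_comm (a i : ZMod ℓ) n',
          smul_comm (a i : ZMod ℓ) n]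
    _ = 0 := by
        rw [hw.rel, hw'.rel, tm_zero_left, tm_zero_right, smul_zero, smul_zero, add_zero]

end Pool.Agent.Helper54.PT
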